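import Pool.Agent.MNW.StmtsA

/-!
# Squad MNW (MP_160b6c_nt), row LBW: the local inequality at the places of a number field
(copy of Helper92_MNU/LBU)
-/

set_option autoImplicit false

namespace Pool.Agent.MNW.H30

open Polynomial NumberField
open Pool.Agent.MNT

theorem card_QR (g m : ℕ) : (QR g m).card = 2 * g + 1 := by
  have h : QR g m = (Finset.univ : Finset (Fin (2 * g + 1))).map Function.Embedding.inl := by
    ext p
    rcases p with p | p <;> simp [QR]
  rw [h, Finset.card_map, Finset.card_univ, Fintype.card_fin]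

theorem card_QI (g m : ℕ) : Fintype.card (QI g m) = 2 * g + 1 + m := by
  simp [QI]

theorem qu_vC : QU vC (Real.log 2) := by
  refine ⟨Real.log_nonneg one_le_two, fun a b => ?_⟩
  rw [Real.exp_log two_pos]
  show ‖a + b‖ ≤ 2 * max ‖a‖ ‖b‖
  have h1 := norm_add_le a b
  have h2 := le_max_left ‖a‖ ‖b‖
  have h3 := le_max_right ‖a‖ ‖b‖
  linarith

theorem lbw (hLOW : LowStmt) (hNBW : NbwStmt) (hOTE : MNU.OteStmt) (hOTN : OtnStmt) :
    LbwStmt := by
  intro g m A hTI
  have hg := hTI.g_ge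
  refine ⟨?_, ?_⟩
  · intro E _ v hv z hz e N U W c he hsol p q p' q' hpq hpq'
    have hQU : QU v 0 := by
      refine ⟨le_refl _, fun a b => ?_⟩
      rw [Real.exp_zero, one_mul]
      exact hv a b
    have hG : ∀ Λ : Lam (QI g m), Λ.Rep (dis v z) ((Fintype.card (QI g m) : ℝ) * 0) →
        ∀ d ∈ Λ.V, Λ.Grd (QR g m) d → ∃ p ∈ d, ∀ x, x ∉ QR g m →
          Harm v (U x).roots (z x) (z p) (Real.exp (-Λ.lev d)) 0 := by
      intro Λ hΛ d hd hgrd
      rw [mul_zero] at hΛ
      obtain ⟨p, hp, hharm⟩ := hOTN E v hv (QI g m) (QR g m) z hz Λ hΛ e he d hd hgrd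
      exact ⟨p, hp, fun x hx => hharm (z x) (N x) (U x) (W x) (c x) (hsol x hx).1 (hsol x hx).2⟩
    have h := hLOW g m A hTI E v 0 0 hQU (le_refl _) (QI g m) (QR g m) (card_QR g m)
      (card_QI g m) z hz e N U W c he hsol hG p q p' q' hpq hpq'
    simpa using h
  · intro z hz e N U W c he hsol p q p' q' hpq hpq'
    set n : ℝ := (Fintype.card (QI g m) : ℝ) with hn
    have hn' : n = 2 * (g : ℝ) + 1 + m := by
      rw [hn, card_QI]; push_cast; ring
    have hm1 : (9 : ℝ) ≤ m := by exact_mod_cast hTI.m_ge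
    have hm2 : (m : ℝ) ≤ 13 := by exact_mod_cast hTI.m_le
    have hg2 : (2 : ℝ) ≤ g := by exact_mod_cast hg
    have hn1 : 1 ≤ n := by
      rw [hn']; linarith
    have hn2 : n ≤ 4 * g + 10 := by
      rw [hn']; linarith
    set e₂ : ℝ := Real.log 128 + |n * Real.log 2| + n * Real.log (4 * n) with he₂
    have he₂0 : 0 ≤ e₂ := by
      rw [he₂]
      have a1 : 0 ≤ Real.log 128 := Real.log_nonneg (by norm_num)
      have a3 : 0 ≤ Real.log (4 * n) := Real.log_nonneg (by linarith)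
      have a4 := abs_nonneg (n * Real.log 2)
      have a5 : 0 ≤ n * Real.log (4 * n) := mul_nonneg (by linarith) a3
      linarith
    have hG : ∀ Λ : Lam (QI g m), Λ.Rep (dis vC z) (n * Real.log 2) →
        ∀ d ∈ Λ.V, Λ.Grd (QR g m) d → ∃ p ∈ d, ∀ x, x ∉ QR g m →
          Harm vC (U x).roots (z x) (z p) (Real.exp (-Λ.lev d)) e₂ := by
      intro Λ hΛ d hd hgrd
      obtain ⟨p, hp, hharm⟩ := hOTE (n * Real.log 2) (QI g m) (QR g m) z hz Λ hΛ
        e he d hd hgrd
      exact ⟨p, hp, fun x hx => hharm (z x) (N x) (U x) (W x) (c x) (hsol x hx)⟩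
    have h := hLOW g m A hTI ℂ vC (Real.log 2) e₂ qu_vC he₂0 (QI g m) (QR g m) (card_QR g m)
      (card_QI g m) z hz e
      N U W c he (fun x hx => ⟨hsol x hx, IsAlgClosed.splits _⟩) hG p q p' q' hpq hpq'
    have hb := hNBW g hg n hn1 hn2
    have hb' : E1 g * Real.log 2 + E2 g * e₂ ≤ (4 * (g : ℝ) + 10) ^ 5 := hb
    refine h.trans ?_
    have h' : ∀ A B C D : ℝ, C ≤ D → A - B + C ≤ A - B + D := fun A B C D hCD => by linarith
    exact h' _ _ _ _ hb'

end Pool.Agent.MNW.H30
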